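import Pool.Agent.H965.Univ.Main
import Pool.Graph.R_pool_sql_team_seeded_3dad9d7b.NH38.Fork.GMain
import Pool.Graph.R_pool_sql_team_seeded_3dad9d7b.NH38.Fork.R1
import Pool.Graph.R_pool_sql_team_seeded_3dad9d7b.NH38.Fork.R2
import Pool.Graph.R_pool_sql_team_seeded_3dad9d7b.NH38.Fork.R3
import Pool.Graph.R_pool_sql_team_seeded_3dad9d7b.NH38.Fork.R4
import Pool.Graph.R_pool_sql_team_seeded_3dad9d7b.NH38.Fork.R5
import Pool.Graph.R_pool_sql_team_seeded_3dad9d7b.NH38.Fork.R6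
import Pool.Graph.R_pool_sql_team_seeded_3dad9d7b.NH38.Fork.R7

/-!
The forked channels in layered environments.
-/

set_option autoImplicit false

namespace Pool.Agent.H965.Univ

open Pool.Agent.H988R2.Perc MeasureTheory ProbabilityTheory unitInterval Filter Topology Relation
open Q292.Env
open Pool.Agent.NH38.Fork (FCross FAdj)

/-- the three strips of the forked channel: the lower strip and the two arms -/
def forkS (a m b : ℕ) : Fin 3 → Strip :=
  ![⟨false, -(a:ℤ), ((m + b : ℕ) : ℤ)⟩, ⟨true, -(a:ℤ), 0⟩, ⟨true, (m:ℤ), ((m + b : ℕ) : ℤ)⟩]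

theorem forkS_channel {a m b : ℕ} (ha : Odd a) (hm : Odd m) (hb : Odd b) :
    Channel (forkS a m b) := by
  rw [Nat.odd_iff] at ha hm hb
  refine ⟨?_, ?_, ?_, ?_⟩
  · intro j
    rw [Int.odd_iff]
    fin_cases j <;> simp [forkS] <;> omega
  · intro j
    rw [Int.even_iff]
    fin_cases j <;> simp [forkS] <;> omega
  · intro j
    fin_cases j <;> simp [forkS] <;> omega
  · intro i j hij hup
    fin_cases i <;> fin_cases j <;> simp [forkS] at hij hup ⊢ <;> omega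

theorem mem0 {a m b : ℕ} {x : ℤ × ℤ} : (forkS a m b 0).Mem x ↔
    -(a:ℤ) ≤ x.1 - x.2 ∧ x.1 - x.2 ≤ ((m + b : ℕ) : ℤ) ∧ x.1 + x.2 ≤ 0 := by
  simp [forkS, Strip.Mem]

theorem mem1 {a m b : ℕ} {x : ℤ × ℤ} : (forkS a m b 1).Mem x ↔
    -(a:ℤ) ≤ x.1 - x.2 ∧ x.1 - x.2 ≤ 0 ∧ 0 ≤ x.1 + x.2 := by
  simp [forkS, Strip.Mem]

theorem mem2 {a m b : ℕ} {x : ℤ × ℤ} : (forkS a m b 2).Mem x ↔
    (m:ℤ) ≤ x.1 - x.2 ∧ x.1 - x.2 ≤ ((m + b : ℕ) : ℤ) ∧ 0 ≤ x.1 + x.2 := by
  simp [forkS, Strip.Mem]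

theorem adj_fork {a m b : ℕ} (hm : 1 ≤ m) (ω : Conf) (x y : ℤ × ℤ) :
    Adj (forkS a m b) ω x y ↔ FAdj a m b ω x y := by
  unfold Adj FAdj
  constructor
  · rintro ⟨h, j, h1, h2⟩
    have hst : (y.1 - y.2 = x.1 - x.2 + 1 ∨ y.1 - y.2 = x.1 - x.2 - 1) := by
      rcases h with ⟨e, _⟩ | ⟨e, _⟩ | ⟨e, _⟩ | ⟨e, _⟩ <;> rw [e] <;> dsimp only <;> omega
    have hht : (y.1 + y.2 = x.1 + x.2 + 1 ∨ y.1 + y.2 = x.1 + x.2 - 1) := by
      rcases h with ⟨e, _⟩ | ⟨e, _⟩ | ⟨e, _⟩ | ⟨e, _⟩ <;> rw [e] <;> dsimp only <;> omega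
    refine ⟨h, ?_⟩
    fin_cases j
    · have h1' := mem0.1 h1
      have h2' := mem0.1 h2
      refine ⟨h1'.1, h1'.2.1, h2'.1, h2'.2.1, ?_⟩
      omega
    · have h1' := mem1.1 h1
      have h2' := mem1.1 h2
      push_cast
      omega
    · have h1' := mem2.1 h1
      have h2' := mem2.1 h2
      push_cast at h1' h2' ⊢
      omega
  · rintro ⟨h, h1, h2, h3, h4, h5⟩
    have hst : (y.1 - y.2 = x.1 - x.2 + 1 ∨ y.1 - y.2 = x.1 - x.2 - 1) := by
      rcases h with ⟨e, _⟩ | ⟨e, _⟩ | ⟨e, _⟩ | ⟨e, _⟩ <;> rw [e] <;> dsimp only <;> omega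
    have hht : (y.1 + y.2 = x.1 + x.2 + 1 ∨ y.1 + y.2 = x.1 + x.2 - 1) := by
      rcases h with ⟨e, _⟩ | ⟨e, _⟩ | ⟨e, _⟩ | ⟨e, _⟩ <;> rw [e] <;> dsimp only <;> omega
    refine ⟨h, ?_⟩
    by_cases hh : x.1 + x.2 ≤ 0 ∧ y.1 + y.2 ≤ 0
    · exact ⟨0, mem0.2 ⟨h1, h2, hh.1⟩, mem0.2 ⟨h3, h4, hh.2⟩⟩
    · by_cases hc : x.1 - x.2 ≤ 0 ∧ y.1 - y.2 ≤ 0
      · exact ⟨1, mem1.2 ⟨h1, hc.1, by omega⟩, mem1.2 ⟨h3, hc.2, by omega⟩⟩
      · refine ⟨2, mem2.2 ⟨?_, h2, by omega⟩, mem2.2 ⟨?_, h4, by omega⟩⟩ <;> omega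

theorem cross_fork {a m b : ℕ} (hm : 1 ≤ m) : FCross a m b = Joined (forkS a m b) {1} := by
  ext ω
  have e : FAdj a m b ω = Adj (forkS a m b) ω := by
    funext x y; exact propext (adj_fork hm ω x y).symm
  unfold FCross Joined
  simp only [Set.mem_ofPred_eq, Set.mem_singleton_iff, exists_eq_left, e]
  constructor
  · rintro ⟨x, y, h1, h2, h3, h4⟩
    by_cases hy : y.1 + y.2 ≤ 0
    · refine ⟨0, by decide, x, y, ⟨mem1.2 ⟨by omega, by omega, h2⟩, by simpa [forkS] using h1⟩,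
        ⟨mem0.2 ⟨by omega, by omega, hy⟩, by simpa [forkS] using h3⟩, h4⟩
    · refine ⟨2, by decide, x, y, ⟨mem1.2 ⟨by omega, by omega, h2⟩, by simpa [forkS] using h1⟩,
        ⟨mem2.2 ⟨by omega, by omega, by omega⟩, by simpa [forkS] using h3⟩, h4⟩
  · rintro ⟨j, hj, x, y, ⟨hx1, hx2⟩, ⟨hy1, hy2⟩, h⟩
    have hx1' := mem1.1 hx1
    refine ⟨x, y, by simpa [forkS] using hx2, hx1'.2.2, ?_, h⟩
    fin_cases j
    · simpa [forkS] using hy2
    · exact absurd rfl hj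
    · simpa [forkS] using hy2

/-- the layered environment of the forked channels: `h` below the height `0`, `g` in the left arm,
`g'` in the right arm -/
def forkEnv (h g g' : ℤ → I) (e : Edge) : I :=
  let x := if 0 ≤ e.1 + e.2.1 then (if 1 ≤ e.1 - e.2.1 then g' (e.1 + e.2.1) else g (e.1 + e.2.1))
    else h (e.1 + e.2.1)
  if e.2.2 = true then σ x else x

/-- nondegenerate layered environments -/
structure NDeg (h g g' : ℤ → I) : Prop where
  h_pair : ∀ n : ℤ, h (2 * n + 1) = σ (h (2 * n))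
  g_pair : ∀ n : ℤ, g (2 * n + 1) = σ (g (2 * n))
  g'_pair : ∀ n : ℤ, g' (2 * n + 1) = σ (g' (2 * n))
  h_ell : ∃ ε : ℝ, 0 < ε ∧ ∃ᶠ n : ℕ in atTop, ε ≤ (h (-(2 * n)) : ℝ) ∧ (h (-(2 * n)) : ℝ) ≤ 1 - ε
  g_ell : ∃ ε : ℝ, 0 < ε ∧ ∃ᶠ n : ℕ in atTop, ε ≤ (g (2 * n) : ℝ) ∧ (g (2 * n) : ℝ) ≤ 1 - ε
  g'_ell : ∃ ε : ℝ, 0 < ε ∧ ∃ᶠ n : ℕ in atTop, ε ≤ (g' (2 * n) : ℝ) ∧ (g' (2 * n) : ℝ) ≤ 1 - ε

/-- exact universality for the forked channels, odd widths -/
theorem fork_odd {h g g' : ℤ → I} (hn : NDeg h g g') {a m b : ℕ} (ha : Odd a) (hm : Odd m)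
    (hb : Odd b) : (percP (forkEnv h g g')).real (FCross a m b) = perc.real (FCross a m b) := by
  have hS := forkS_channel ha hm hb
  have hm1 : 1 ≤ m := hm.pos
  have key := joined_law hS (h := ![h, g, g']) (p := forkEnv h g g') ?_ ?_ {T | {1} ∈ T}
  · simp only [Set.mem_ofPred_eq] at key
    rw [cross_fork hm1]
    exact key
  · intro j
    fin_cases j
    · exact ⟨hn.h_pair, by simpa [forkS] using hn.h_ell⟩
    · exact ⟨hn.g_pair, by simpa [forkS] using hn.g_ell⟩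
    · exact ⟨hn.g'_pair, by simpa [forkS] using hn.g'_ell⟩
  · intro j u v
    fin_cases j
    · refine ⟨fun h1 h2 => ?_, fun h1 h2 => ?_⟩
      · have h1' := mem0.1 h1
        have h2' := mem0.1 h2
        dsimp only at h1' h2'
        simp only [forkEnv, Bool.false_eq_true, if_false]
        rw [if_neg (by omega)]
        rfl
      · have h1' := mem0.1 h1
        have h2' := mem0.1 h2
        dsimp only at h1' h2'
        simp only [forkEnv, if_true]
        rw [if_neg (by omega)]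
        rfl
    · refine ⟨fun h1 h2 => ?_, fun h1 h2 => ?_⟩
      · have h1' := mem1.1 h1
        have h2' := mem1.1 h2
        dsimp only at h1' h2'
        simp only [forkEnv, Bool.false_eq_true, if_false]
        rw [if_pos (by omega), if_neg (by omega)]
        rfl
      · have h1' := mem1.1 h1
        have h2' := mem1.1 h2
        dsimp only at h1' h2'
        simp only [forkEnv, if_true]
        rw [if_pos (by omega), if_neg (by omega)]
        rfl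
    · refine ⟨fun h1 h2 => ?_, fun h1 h2 => ?_⟩
      · have h1' := mem2.1 h1
        have h2' := mem2.1 h2
        dsimp only at h1' h2'
        simp only [forkEnv, Bool.false_eq_true, if_false]
        rw [if_pos (by omega), if_pos (by omega)]
        rfl
      · have h1' := mem2.1 h1
        have h2' := mem2.1 h2
        dsimp only at h1' h2'
        simp only [forkEnv, if_true]
        rw [if_pos (by omega), if_pos (by omega)]
        rfl

open Pool.Agent.H863R4 Pool.Agent.NH38.Fork.GF in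
/-- sandwich between odd widths -/
theorem fork_sandwich {h g g' : ℤ → I} (hn : NDeg h g g') {a m b : ℕ} (ha : 1 ≤ a) (hm : 1 ≤ m)
    (hb : 1 ≤ b) :
    perc.real (FCross (od a) (ou m) (ou b)) ≤ (percP (forkEnv h g g')).real (FCross a m b) ∧
    (percP (forkEnv h g g')).real (FCross a m b) ≤ perc.real (FCross (ou a) (od m) (od b)) := by
  constructor
  · rw [← fork_odd hn (od_odd a) (ou_odd m) (ou_odd b)]
    exact measureReal_mono (sub (od_le (by omega)) (le_ou _) (add_le_add (le_ou _) (le_ou _)))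
  · rw [← fork_odd hn (ou_odd a) (od_odd m) (od_odd b)]
    exact measureReal_mono (sub (le_ou _) (od_le (by omega))
      (add_le_add (od_le (by omega)) (od_le (by omega))))

open Pool.Agent.H863R4 Pool.Agent.NH38.Fork.GF Pool.Agent.NH38.Fork Pool.Agent.NH38.Step in
/-- **Cardy's formula in the forked channels, in all layered environments** -/
theorem fork_lim (α γ β : ℝ) (hα : 0 < α) (hγ : 0 < γ) (hβ : 0 < β) (δ : ℕ → ℝ) (a m b : ℕ → ℕ)
    (h g g' : ℕ → ℤ → I) (hδ : ∀ n, 0 < δ n) (hδ0 : Tendsto δ atTop (𝓝 0))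
    (ha : Tendsto (fun n => δ n * a n) atTop (𝓝 α)) (hm : Tendsto (fun n => δ n * m n) atTop (𝓝 γ))
    (hb : Tendsto (fun n => δ n * b n) atTop (𝓝 β)) (hn : ∀ n, NDeg (h n) (g n) (g' n)) :
    Tendsto (fun n => (percP (forkEnv (h n) (g n) (g' n))).real (FCross (a n) (m n) (b n))) atTop
      (𝓝 (cardy (x1 ((α/(α+γ+β))^2) ((β/(α+γ+β))^2)))) := by
  have a1 : Tendsto (fun n => δ n * ou (a n)) atTop (𝓝 α) := lim_close hδ hδ0 ha fun n => ou_dist _
  have a2 : Tendsto (fun n => δ n * od (a n)) atTop (𝓝 α) := lim_close hδ hδ0 ha fun n => od_dist _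
  have m1 : Tendsto (fun n => δ n * ou (m n)) atTop (𝓝 γ) := lim_close hδ hδ0 hm fun n => ou_dist _
  have m2 : Tendsto (fun n => δ n * od (m n)) atTop (𝓝 γ) := lim_close hδ hδ0 hm fun n => od_dist _
  have b1 : Tendsto (fun n => δ n * ou (b n)) atTop (𝓝 β) := lim_close hδ hδ0 hb fun n => ou_dist _
  have b2 : Tendsto (fun n => δ n * od (b n)) atTop (𝓝 β) := lim_close hδ hδ0 hb fun n => od_dist _
  have e1 := (lim_top hδ hδ0 hα ha).eventually_ge_atTop 1
  have e2 := (lim_top hδ hδ0 hγ hm).eventually_ge_atTop 1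
  have e3 := (lim_top hδ hδ0 hβ hb).eventually_ge_atTop 1
  have L1 := a_LimG α γ β hα hγ hβ δ _ _ _ hδ hδ0 a1 m2 b2
  have L2 := a_LimG α γ β hα hγ hβ δ _ _ _ hδ hδ0 a2 m1 b1
  refine tendsto_of_tendsto_of_tendsto_of_le_of_le' L2 L1 ?_ ?_
  · filter_upwards [e1, e2, e3] with n h1 h2 h3
    exact (fork_sandwich (hn n) (by exact_mod_cast h1) (by exact_mod_cast h2)
      (by exact_mod_cast h3)).1
  · filter_upwards [e1, e2, e3] with n h1 h2 h3
    exact (fork_sandwich (hn n) (by exact_mod_cast h1) (by exact_mod_cast h2)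
      (by exact_mod_cast h3)).2

open Pool.Agent.H863R4 Pool.Agent.NH38.Fork.GF Pool.Agent.NH38.Fork Pool.Agent.NH38.Step in
/-- **the sharp rate, in all layered environments** -/
theorem fork_rate (α γ β K : ℝ) (hα : 0 < α) (hγ : 0 < γ) (hβ : 0 < β) (δ : ℕ → ℝ) (a m b : ℕ → ℕ)
    (h g g' : ℕ → ℤ → I) (hδ : ∀ n, 0 < δ n) (hδ0 : Tendsto δ atTop (𝓝 0))
    (ha : ∀ n, |δ n * a n - α| ≤ K * δ n) (hm : ∀ n, |δ n * m n - γ| ≤ K * δ n)
    (hb : ∀ n, |δ n * b n - β| ≤ K * δ n) (hn : ∀ n, NDeg (h n) (g n) (g' n)) :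
    Tendsto (fun n => ((percP (forkEnv (h n) (g n) (g' n))).real (FCross (a n) (m n) (b n)) -
      cardy (x1 ((α/(α+γ+β))^2) ((β/(α+γ+β))^2))) / (δ n)^((2:ℝ)/3)) atTop
      (𝓝 (NH38.Fork.cR * (x2 ((α/(α+γ+β))^2) ((β/(α+γ+β))^2) - x1 ((α/(α+γ+β))^2) ((β/(α+γ+β))^2))^(-(1:ℝ)/3) *
      (α+γ+β)^(-(2:ℝ)/3))) := by
  have hRP := t_RateP a_ExactG (t_RateG t_MJ t_pos t_sE t_vE t_KE t_ME (t_F4 t_WI) t_B4 a_FGle)
  have close : ∀ (c : ℕ → ℕ) (c' : ℕ → ℕ) (κ : ℝ), (∀ n, |δ n * c n - κ| ≤ K * δ n) →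
      (∀ n, |(c' n : ℝ) - c n| ≤ 1) → ∀ n, |δ n * c' n - κ| ≤ (K + 1) * δ n := by
    intro c c' κ h1 h2 n
    have e : δ n * c' n - κ = δ n * ((c' n : ℝ) - c n) + (δ n * c n - κ) := by ring
    rw [e]
    refine (abs_add_le _ _).trans ?_
    rw [abs_mul, abs_of_pos (hδ n)]
    have := mul_le_mul_of_nonneg_left (h2 n) (hδ n).le
    linarith [h1 n]
  have lim : ∀ (c : ℕ → ℕ) (κ : ℝ), (∀ n, |δ n * c n - κ| ≤ K * δ n) →
      Tendsto (fun n => δ n * c n) atTop (𝓝 κ) := by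
    intro c κ h1
    have h2 : Tendsto (fun n => K * δ n) atTop (𝓝 0) := by simpa using hδ0.const_mul K
    have h3 : Tendsto (fun n => δ n * c n - κ) atTop (𝓝 0) :=
      squeeze_zero_norm (fun n => by rw [Real.norm_eq_abs]; exact h1 n) h2
    have h4 := h3.add_const κ
    simpa using h4
  have e1 := (lim_top hδ hδ0 hα (lim a α ha)).eventually_ge_atTop 1
  have e2 := (lim_top hδ hδ0 hγ (lim m γ hm)).eventually_ge_atTop 1
  have e3 := (lim_top hδ hδ0 hβ (lim b β hb)).eventually_ge_atTop 1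
  have L1 := hRP α γ β (K+1) hα hγ hβ δ _ _ _ hδ hδ0 (close a (fun n => ou (a n)) α ha fun n => ou_dist _)
    (close m (fun n => od (m n)) γ hm fun n => od_dist _) (close b (fun n => od (b n)) β hb fun n => od_dist _)
  have L2 := hRP α γ β (K+1) hα hγ hβ δ _ _ _ hδ hδ0 (close a (fun n => od (a n)) α ha fun n => od_dist _)
    (close m (fun n => ou (m n)) γ hm fun n => ou_dist _) (close b (fun n => ou (b n)) β hb fun n => ou_dist _)
  refine tendsto_of_tendsto_of_tendsto_of_le_of_le' L2 L1 ?_ ?_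
  · filter_upwards [e1, e2, e3] with n h1 h2 h3
    have := (fork_sandwich (hn n) (a := a n) (m := m n) (b := b n) (by exact_mod_cast h1)
      (by exact_mod_cast h2) (by exact_mod_cast h3)).1
    exact div_le_div_of_nonneg_right (by linarith) (Real.rpow_nonneg (hδ n).le _)
  · filter_upwards [e1, e2, e3] with n h1 h2 h3
    have := (fork_sandwich (hn n) (a := a n) (m := m n) (b := b n) (by exact_mod_cast h1)
      (by exact_mod_cast h2) (by exact_mod_cast h3)).2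
    exact div_le_div_of_nonneg_right (by linarith) (Real.rpow_nonneg (hδ n).le _)

end Pool.Agent.H965.Univ
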