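import Pool.Agent.H965.Univ.Port

/-!
Gluing of the ports along the height `0`.
-/

set_option autoImplicit false

namespace Pool.Agent.H965.Univ

open Pool.Agent.H988R2.Perc Relation

theorem eqvGen_touch {α : Type*} {r : α → α → Prop} {T : α → Prop} (hT : ∀ x y, r x y → T x ∧ T y)
    {x y : α} (h : EqvGen r x y) : x = y ∨ (T x ∧ T y) := by
  induction h with
  | rel x y h => exact Or.inr (hT x y h)
  | refl x => exact Or.inl rfl
  | symm x y _ ih =>
    rcases ih with ih | ih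
    · exact Or.inl ih.symm
    · exact Or.inr ⟨ih.2, ih.1⟩
  | trans x y z _ _ i1 i2 =>
    rcases i1 with i1 | i1
    · subst i1; exact i2
    · rcases i2 with i2 | i2
      · subst i2; exact Or.inr i1
      · exact Or.inr ⟨i1.1, i2.2⟩

/-- gluing of graphs whose common vertices are in `N` -/
theorem glue {α ι : Type*} (Gr : ι → α → α → Prop) (T : ι → α → Prop) (N : α → Prop)
    (hT : ∀ j x y, Gr j x y → T j x ∧ T j y)
    (hN : ∀ i j x, ¬ N x → T i x → T j x → i = j) {x y : α} (hx : N x) (hy : N y) :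
    EqvGen (fun x y => ∃ j, Gr j x y) x y ↔
      EqvGen (fun x y => N x ∧ N y ∧ ∃ j, EqvGen (Gr j) x y) x y := by
  constructor
  · intro h
    set R := EqvGen (fun x y => N x ∧ N y ∧ ∃ j, EqvGen (Gr j) x y) with hR
    let Q : α → Prop := fun z => (N z ∧ R x z) ∨
      (¬ N z ∧ ∃ n j, N n ∧ R x n ∧ T j z ∧ EqvGen (Gr j) n z)
    have key : ∀ z w, (∃ i, Gr i z w ∨ Gr i w z) → Q z → Q w := by
      rintro z w ⟨i, hi⟩ hz
      have hTz : T i z ∧ T i w := by
        rcases hi with hi | hi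
        · exact hT i z w hi
        · exact (hT i w z hi).symm
      have hzw : EqvGen (Gr i) z w := by
        rcases hi with hi | hi
        · exact EqvGen.rel _ _ hi
        · exact EqvGen.symm _ _ (EqvGen.rel _ _ hi)
      rcases hz with ⟨h1, h2⟩ | ⟨h1, n, j, h2, h3, h4, h5⟩
      · by_cases hw : N w
        · exact Or.inl ⟨hw, EqvGen.trans _ _ _ h2 (EqvGen.rel _ _ ⟨h1, hw, i, hzw⟩)⟩
        · exact Or.inr ⟨hw, z, i, h1, h2, hTz.2, hzw⟩
      · have hij := hN i j z h1 hTz.1 h4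
        subst hij
        have hnw := EqvGen.trans _ _ _ h5 hzw
        by_cases hw : N w
        · exact Or.inl ⟨hw, EqvGen.trans _ _ _ h3 (EqvGen.rel _ _ ⟨h2, hw, i, hnw⟩)⟩
        · exact Or.inr ⟨hw, n, i, h2, h3, hTz.2, hnw⟩
    have hQ : Q x ↔ Q y := by
      refine T22.eqvGen_iff Q ?_ h
      rintro z w ⟨i, hi⟩
      exact ⟨key z w ⟨i, Or.inl hi⟩, key w z ⟨i, Or.inr hi⟩⟩
    rcases hQ.1 (Or.inl ⟨hx, EqvGen.refl _⟩) with h1 | h1
    · exact h1.2
    · exact absurd hy h1.1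
  · intro h
    induction h with
    | rel x y h =>
      obtain ⟨_, _, j, h⟩ := h
      exact h.mono fun a b hab => ⟨j, hab⟩
    | refl x => exact EqvGen.refl _
    | symm x y _ ih => exact (ih hy hx).symm
    | trans x y z h1 h2 i1 i2 =>
      by_cases hyN : N y
      · exact EqvGen.trans _ _ _ (i1 hx hyN) (i2 hyN hy)
      · have t1 := eqvGen_touch (T := N) (fun a b hab => ⟨hab.1, hab.2.1⟩) h1
        rcases t1 with t1 | t1
        · subst t1; exact absurd hx hyN
        · exact absurd t1.2 hyN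

variable {ι : Type}

/-- the ports do not overlap -/
structure Good (P : ι → Port) : Prop where
  odd : ∀ j, Odd (P j).L
  sep : ∀ i j, i ≠ j → (P i).up = (P j).up →
    2 * (P i).m - 1 + (P i).L < 2 * (P j).m - 1 ∨ 2 * (P j).m - 1 + (P j).L < 2 * (P i).m - 1

theorem G_mem {P : Port} {ω : Conf} {x y : ℤ × ℤ} (h : P.G ω x y) : P.Mem x ∧ P.Mem y := by
  rcases h with ⟨_, h1, h2⟩ | ⟨h1, h2⟩
  · exact ⟨h1, h2⟩
  · exact ⟨h1.1, h2.1⟩

theorem mem_unique {P : ι → Port} (hP : Good P) {i j : ι} {x : ℤ × ℤ} (h0 : ¬ x.1 + x.2 = 0)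
    (hi : (P i).Mem x) (hj : (P j).Mem x) : i = j := by
  by_contra hij
  obtain ⟨h1, h2, h3⟩ := hi
  obtain ⟨h4, h5, h6⟩ := hj
  have hup : (P i).up = (P j).up := by
    cases hi' : (P i).up <;> cases hj' : (P j).up <;> simp only [hi', hj'] at h3 h6 <;>
      simp at h3 h6 ⊢ <;> omega
  rcases hP.sep i j hij hup with h | h <;> omega

/-- the relation on the vertices given by the states -/
def Pt (P : ι → Port) (S : ι → St) (x y : ℤ × ℤ) : Prop :=
  ∃ (j : ι) (a b : ℕ), a % 2 = 1 ∧ b % 2 = 1 ∧ a ≤ (P j).L ∧ b ≤ (P j).L ∧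
    x = (P j).node a ∧ y = (P j).node b ∧ (S j).rel a b

/-- the graph of the domain with wired right walls -/
def WG (P : ι → Port) (ω : Conf) (x y : ℤ × ℤ) : Prop := ∃ j, (P j).G ω x y

/-- the pattern at the height `0` -/
def pat (P : ι → Port) (ω : Conf) (s t : ℤ) : Prop := EqvGen (WG P ω) (s, -s) (t, -t)

/-- the pattern as a function of the states -/
def patS (P : ι → Port) (S : ι → St) (s t : ℤ) : Prop := EqvGen (Pt P S) (s, -s) (t, -t)

theorem mem_node {P : Port} {x : ℤ × ℤ} (h0 : x.1 + x.2 = 0) (h : P.Mem x) :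
    ∃ a : ℕ, a % 2 = 1 ∧ a ≤ P.L ∧ x = P.node a := by
  obtain ⟨h1, h2, h3⟩ := h
  refine ⟨(x.1 - x.2 - (2 * P.m - 1)).toNat, by omega, by omega, ?_⟩
  unfold Port.node
  apply Prod.ext <;> dsimp only <;> omega

theorem ev_const (P : Port) (hL : Odd P.L) (ω : Conf) : ∃ M0, ∀ M, M0 ≤ M → ∀ a b : ℕ, a % 2 = 1 →
    b % 2 = 1 → a ≤ P.L → b ≤ P.L →
    ((P.st M ω).rel a b ↔ EqvGen (P.G ω) (P.node a) (P.node b)) := by
  classical
  have h1 : ∀ a b : ℕ, ∃ M0, (∃ M, (P.st M ω).rel a b) → (P.st M0 ω).rel a b := by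
    intro a b
    by_cases h : ∃ M, (P.st M ω).rel a b
    · obtain ⟨M, hM⟩ := h
      exact ⟨M, fun _ => hM⟩
    · exact ⟨0, fun h' => absurd h' h⟩
  choose m hm using h1
  refine ⟨(Finset.range (P.L+1)).sup fun a => (Finset.range (P.L+1)).sup fun b => m a b,
    fun M hM a b ha hb haL hbL => ?_⟩
  rw [Port.G_iff P hL ω ha hb haL hbL]
  constructor
  · exact fun h => ⟨M, h⟩
  · intro h
    refine Port.st_mono P hL ω ?_ ha hb haL hbL (hm a b h)
    refine le_trans ?_ hM
    refine le_trans ?_ (Finset.le_sup (f := fun a => (Finset.range (P.L+1)).sup fun b => m a b)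
      (Finset.mem_range.2 (by omega : a < P.L + 1)))
    exact Finset.le_sup (f := fun b => m a b) (Finset.mem_range.2 (by omega : b < P.L + 1))

/-- the pattern is determined by the states of large windows -/
theorem pat_eq [Fintype ι] {P : ι → Port} (hP : Good P) (ω : Conf) : ∃ M0, ∀ M, M0 ≤ M →
    pat P ω = patS P (fun j => (P j).st M ω) := by
  classical
  choose m hm using fun j => ev_const (P j) (hP.odd j) ω
  refine ⟨Finset.univ.sup m, fun M hM => ?_⟩
  have hm' : ∀ j, ∀ a b : ℕ, a % 2 = 1 → b % 2 = 1 → a ≤ (P j).L → b ≤ (P j).L →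
      (((P j).st M ω).rel a b ↔ EqvGen ((P j).G ω) ((P j).node a) ((P j).node b)) := by
    intro j
    exact hm j M (le_trans (Finset.le_sup (Finset.mem_univ j)) hM)
  funext s t
  apply propext
  unfold pat patS
  have hg := glue (fun j => (P j).G ω) (fun j => (P j).Mem) (fun x => x.1 + x.2 = 0)
    (fun j x y h => G_mem h) (fun i j x h0 h1 h2 => mem_unique hP h0 h1 h2)
    (x := (s, -s)) (y := (t, -t)) (by simp) (by simp)
  unfold WG
  rw [hg]
  constructor
  · intro h
    have h' := T22.eqvGen_map (F := Pt P (fun j => (P j).st M ω)) id ?_ h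
    · exact h'
    · rintro x y ⟨hx, hy, j, h⟩
      rcases eqvGen_touch (T := (P j).Mem) (fun a b hab => G_mem hab) h with h1 | ⟨h1, h2⟩
      · subst h1; exact EqvGen.refl _
      · obtain ⟨a, ha, haL, rfl⟩ := mem_node hx h1
        obtain ⟨b, hb, hbL, rfl⟩ := mem_node hy h2
        exact EqvGen.rel _ _ ⟨j, a, b, ha, hb, haL, hbL, rfl, rfl, (hm' j a b ha hb haL hbL).2 h⟩
  · intro h
    refine h.mono ?_
    rintro x y ⟨j, a, b, ha, hb, haL, hbL, rfl, rfl, h⟩
    refine ⟨?_, ?_, j, (hm' j a b ha hb haL hbL).1 h⟩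
    · unfold Port.node; dsimp only; omega
    · unfold Port.node; dsimp only; omega

end Pool.Agent.H965.Univ
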