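import Pool.Agent.H965.Univ.Glue

/-!
The joint law of the states of the ports in a layered environment.
-/

set_option autoImplicit false

namespace Pool.Agent.H965.Univ

open Pool.Agent.H988R2.Perc Finset MeasureTheory ProbabilityTheory unitInterval Filter Topology
open Pool.Agent.H988R2.Perc.T23 (bits SS mem_SS edgeOf_inj)
open Pool.Agent.H988R2.Perc.T24 (nrm nrm_nonneg)
open Q292.Env

/-- the layered environment `y` in the port: `y (r / 2)` is the weight of the row `r` -/
def Lay (P : Port) (p : Edge → I) (y : ℤ → I) : Prop :=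
  ∀ i r : ℤ, 1 ≤ i → i ≤ P.L → (if P.up = true then 0 ≤ r else r < 0) →
    (p (Port.tr P.m (edgeOf i r)) : ℝ) = if i % 2 = 1 then (y (r/2) : ℝ) else 1 - y (r/2)

/-- ellipticity infinitely often -/
def El (P : Port) (y : ℤ → I) : Prop := if P.up = true then ElF y else ElP y

/-- the edges of the window -/
def fe (P : Port) (M : ℕ) (j : ℕ × ℕ) : Edge :=
  Port.tr P.m (if P.up = true then T23.eF M j else T23.eP M j)

/-- weights of the double rows -/
noncomputable def cw (P : Port) (y : ℤ → I) (M : ℕ) (j : ℕ) : ℝ :=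
  if P.up = true then cF y M j else cP y M j

theorem p_fe {P : Port} {p : Edge → I} {y : ℤ → I} (hp : Lay P p y) (M : ℕ)
    (j : ℕ × ℕ) (hj : j ∈ SS P.L M) :
    (p (fe P M j) : ℝ) = bp (cw P y M (j.1 / 2)) j.2 := by
  rw [mem_SS] at hj
  unfold fe cw
  unfold Lay at hp
  split_ifs with hu
  · simp only [hu, if_true] at hp
    unfold T23.eF bp cF
    rw [hp _ _ (by omega) (by omega) (by omega)]
    have e1 : (2 * (M : ℤ) - 1 - j.1) / 2 = (M : ℤ) - 1 - ((j.1 / 2 : ℕ) : ℤ) := by omega
    rw [e1]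
    have e2 : ((j.2 : ℤ) % 2 = 1) ↔ (j.2 % 2 = 1) := by omega
    simp only [e2]
  · simp only [hu, if_false, Bool.false_eq_true] at hp
    unfold T23.eP bp cP
    rw [hp _ _ (by omega) (by omega) (by omega)]
    have e1 : ((j.1 : ℤ) - 2 * M) / 2 = ((j.1 / 2 : ℕ) : ℤ) - M := by omega
    rw [e1]
    have e2 : ((j.2 : ℤ) % 2 = 1) ↔ (j.2 % 2 = 1) := by omega
    simp only [e2]

/-- the open bits as a set -/
def ts (P : Port) (M : ℕ) (ω : Conf) : Finset (ℕ × ℕ) :=
  (SS P.L M).filter (fun j => ω (fe P M j) = true)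

theorem st_eq (P : Port) (M : ℕ) (ω : Conf) :
    P.st M ω = X P.L (actBit (bits (ts P M ω))) M := by
  unfold Port.st ts fe
  by_cases hu : P.up = true
  · simp only [hu, if_true]
    exact T23.X_fut P.L M (Port.cf P.m ω)
  · simp only [hu, if_false, Bool.false_eq_true]
    exact T23.X_past P.L M (Port.cf P.m ω)

variable {ι : Type}

/-- index set of the coordinates of the windows of all ports -/
abbrev JJ (P : ι → Port) (M : ℕ) := Σ j : ι, ↥(SS (P j).L M)

/-- the edges -/
def ef (P : ι → Port) (M : ℕ) (j : JJ P M) : Edge := fe (P j.1) M j.2.1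

theorem fe_col (P : Port) (M : ℕ) (j : ℕ × ℕ) (hj : j ∈ SS P.L M) :
    (2 * P.m - 1 + (j.2 - 1 : ℤ) = (fe P M j).1 - (fe P M j).2.1 - (if (fe P M j).2.2 = true then 1 else 0)) ∧
    (if P.up = true then 0 ≤ (fe P M j).1 + (fe P M j).2.1 else (fe P M j).1 + (fe P M j).2.1 < 0) ∧
    (if P.up = true then (fe P M j).1 + (fe P M j).2.1 = 2 * (M:ℤ) - 1 - j.1 else
      (fe P M j).1 + (fe P M j).2.1 = (j.1:ℤ) - 2 * M) := by
  rw [mem_SS] at hj
  have key : ∀ i r : ℤ, (2 * P.m - 1 + (i - 1 : ℤ) = (Port.tr P.m (edgeOf i r)).1 -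
      (Port.tr P.m (edgeOf i r)).2.1 - (if (Port.tr P.m (edgeOf i r)).2.2 = true then 1 else 0)) ∧
      (Port.tr P.m (edgeOf i r)).1 + (Port.tr P.m (edgeOf i r)).2.1 = r := by
    intro i r
    unfold Port.tr edgeOf
    by_cases h : (i + r) % 2 = 1
    · rw [if_pos h]
      simp only [if_true]
      omega
    · rw [if_neg h]
      simp only [Bool.false_eq_true, if_false]
      omega
  unfold fe T23.eF T23.eP
  by_cases hu : P.up = true
  · simp only [hu, if_true]
    have := key j.2 (2 * (M : ℤ) - 1 - j.1)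
    refine ⟨this.1, ?_, this.2⟩
    rw [this.2]; omega
  · simp only [hu, if_false, Bool.false_eq_true]
    have := key j.2 ((j.1 : ℤ) - 2 * M)
    refine ⟨this.1, ?_, this.2⟩
    rw [this.2]; omega

theorem ef_inj {P : ι → Port} (hP : Good P) (M : ℕ) : Function.Injective (ef P M) := by
  rintro ⟨j, ⟨x, hx⟩⟩ ⟨j', ⟨x', hx'⟩⟩ h
  simp only [ef] at h
  have h1 := fe_col (P j) M x hx
  have h2 := fe_col (P j') M x' hx'
  rw [h] at h1
  rw [mem_SS] at hx hx'
  have hjj : j = j' := by
    by_contra hne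
    have hup : (P j).up = (P j').up := by
      obtain ⟨_, a1, _⟩ := h1
      obtain ⟨_, a2, _⟩ := h2
      cases hi' : (P j).up <;> cases hj' : (P j').up <;> simp only [hi', hj'] at a1 a2 <;>
        simp at a1 a2 ⊢ <;> omega
    obtain ⟨b1, _, _⟩ := h1
    obtain ⟨b2, _, _⟩ := h2
    rcases hP.sep j j' hne hup with h3 | h3 <;> omega
  subst hjj
  have : x = x' := by
    obtain ⟨b1, _, b3⟩ := h1
    obtain ⟨c1, _, c3⟩ := h2
    apply Prod.ext
    · split_ifs at b3 c3 <;> omega
    · omega
  subst this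
  rfl

/-- a cell: the values of all the bits of the windows are prescribed -/
def cell (P : ι → Port) (M : ℕ) (t : ι → Finset (ℕ × ℕ)) : Set Conf :=
  {ω | ∀ j, ts (P j) M ω = t j}

theorem cell_eq (P : ι → Port) (M : ℕ) (t : ι → Finset (ℕ × ℕ))
    (ht : ∀ j, t j ⊆ SS (P j).L M) :
    cell P M t = ⋂ j : JJ P M, (fun ω : Conf => ω (ef P M j)) ⁻¹' {decide (j.2.1 ∈ t j.1)} := by
  ext ω
  simp only [cell, ts, Set.mem_ofPred_eq, Set.mem_iInter, Set.mem_preimage, Set.mem_singleton_iff]
  constructor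
  · rintro h ⟨j, x⟩
    exact ((Pool.Agent.H980R3.Slit.C08.filter_eq_iff _ _ (fun x => ω (fe (P j) M x)) (ht j)).1 (h j)) x
  · intro h j
    exact (Pool.Agent.H980R3.Slit.C08.filter_eq_iff _ _ (fun x => ω (fe (P j) M x)) (ht j)).2
      fun x => h ⟨j, x⟩

theorem measurableSet_cell [Fintype ι] (P : ι → Port) (M : ℕ) (t : ι → Finset (ℕ × ℕ))
    (ht : ∀ j, t j ⊆ SS (P j).L M) : MeasurableSet (cell P M t) := by
  rw [cell_eq P M t ht]
  exact MeasurableSet.iInter fun j => measurable_pi_apply _ (measurableSet_singleton _)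

variable [Fintype ι]

theorem percP_cell {P : ι → Port} (hP : Good P) {p : Edge → I} {y : ι → ℤ → I}
    (hp : ∀ j, Lay (P j) p (y j)) (M : ℕ) (t : ι → Finset (ℕ × ℕ)) (ht : ∀ j, t j ⊆ SS (P j).L M) :
    (percP p).real (cell P M t) = ∏ j, wt (cw (P j) (y j) M) (SS (P j).L M) (t j) := by
  rw [cell_eq P M t ht, percP_cyl p _ (ef_inj hP M), Fintype.prod_sigma]
  refine Finset.prod_congr rfl fun j _ => ?_
  rw [wt_eq]
  refine Finset.prod_congr rfl fun x _ => ?_
  simp only [ef]
  rw [p_fe (hp j) M x.1 x.2]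

open Classical in
/-- the weight of a state -/
noncomputable def ws (P : Port) (y : ℤ → I) (M : ℕ) (R : St) : ℝ :=
  ∑ t ∈ (SS P.L M).powerset.filter (fun t => X P.L (actBit (bits t)) M = R),
    wt (cw P y M) (SS P.L M) t

/-- the joint law of the states in the windows -/
theorem percP_st {P : ι → Port} (hP : Good P) {p : Edge → I} {y : ι → ℤ → I}
    (hp : ∀ j, Lay (P j) p (y j)) (M : ℕ) (R : ι → St) :
    (percP p).real {ω | ∀ j, (P j).st M ω = R j} = ∏ j, ws (P j) (y j) M (R j) := by
  classical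
  unfold ws
  rw [Finset.prod_univ_sum]
  have h1 : {ω | ∀ j, (P j).st M ω = R j} = ⋃ t ∈ Fintype.piFinset (fun j =>
      (SS (P j).L M).powerset.filter (fun t => X (P j).L (actBit (bits t)) M = R j)), cell P M t := by
    ext ω
    simp only [Set.mem_ofPred_eq, Set.mem_iUnion, Fintype.mem_piFinset, Finset.mem_filter,
      Finset.mem_powerset, exists_prop, cell]
    constructor
    · intro h
      refine ⟨fun j => ts (P j) M ω, fun j => ⟨Finset.filter_subset _ _, ?_⟩, fun j => rfl⟩
      rw [← st_eq]; exact h j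
    · rintro ⟨t, h1, h2⟩ j
      rw [st_eq, h2 j]
      exact (h1 j).2
  rw [h1, measureReal_biUnion_finset]
  · refine Finset.sum_congr rfl fun t ht => ?_
    rw [Fintype.mem_piFinset] at ht
    exact percP_cell hP hp M t fun j => Finset.mem_powerset.1 (Finset.mem_filter.1 (ht j)).1
  · intro t _ t' _ hne
    rw [Function.onFun, Set.disjoint_left]
    intro ω h2 h3
    exact hne (funext fun j => (h2 j).symm.trans (h3 j))
  · intro t ht
    rw [Fintype.mem_piFinset] at ht
    exact measurableSet_cell P M t fun j => Finset.mem_powerset.1 (Finset.mem_filter.1 (ht j)).1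

theorem measurableSet_st (P : ι → Port) (M : ℕ) (R : ι → St) :
    MeasurableSet {ω | ∀ j, (P j).st M ω = R j} := by
  classical
  have h1 : {ω | ∀ j, (P j).st M ω = R j} = ⋃ t ∈ Fintype.piFinset (fun j =>
      (SS (P j).L M).powerset.filter (fun t => X (P j).L (actBit (bits t)) M = R j)), cell P M t := by
    ext ω
    simp only [Set.mem_ofPred_eq, Set.mem_iUnion, Fintype.mem_piFinset, Finset.mem_filter,
      Finset.mem_powerset, exists_prop, cell]
    constructor
    · intro h
      refine ⟨fun j => ts (P j) M ω, fun j => ⟨Finset.filter_subset _ _, ?_⟩, fun j => rfl⟩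
      rw [← st_eq]; exact h j
    · rintro ⟨t, h1, h2⟩ j
      rw [st_eq, h2 j]
      exact (h1 j).2
  rw [h1]
  refine Finset.measurableSet_biUnion _ fun t ht => ?_
  rw [Fintype.mem_piFinset] at ht
  exact measurableSet_cell P M t fun j => Finset.mem_powerset.1 (Finset.mem_filter.1 (ht j)).1

/-- the weight of a state is the coefficient of the law -/
theorem ws_eq (P : Port) (y : ℤ → I) (M : ℕ) (R : St) :
    ((ws P y M R : ℝ) : ℂ) = lawY P.L (cw P y M) M R := by
  classical
  rw [law_eqY, Finsupp.finsetSum_apply]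
  simp only [Finsupp.single_apply]
  unfold ws
  rw [Finset.sum_filter]
  push_cast
  refine Finset.sum_congr rfl fun t _ => ?_
  split_ifs <;> simp

theorem apply_le_nrm (f : St →₀ ℂ) (R : St) : ‖f R‖ ≤ nrm f := by
  by_cases h : R ∈ f.support
  · unfold nrm Finsupp.sum
    exact Finset.single_le_sum (f := fun R => ‖f R‖) (fun _ _ => norm_nonneg _) h
  · rw [Finsupp.notMem_support_iff.1 h, norm_zero]
    exact nrm_nonneg f

theorem cw_mem (P : Port) (y : ℤ → I) (M j : ℕ) : cw P y M j ∈ Set.Icc (0:ℝ) 1 := by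
  unfold cw
  split_ifs
  · exact (y _).2
  · exact (y _).2

/-- convergence of the weights: the limit does not depend on the environment -/
theorem ws_tendsto {P : Port} (hL : Odd P.L) {y : ℤ → I} (hy : El P y) (R : St) :
    Tendsto (fun M => ws P y M R) atTop (𝓝 (sv P.L R).re) := by
  have h1 : Tendsto (fun M => nrm (lawY P.L (cw P y M) M + (-1 : ℂ) • sv P.L)) atTop (𝓝 0) := by
    refine law_tendsto P.L hL (fun M => cw P y M) (fun M j => cw_mem P y M j) ?_
    unfold El at hy
    by_cases hu : P.up = true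
    · simp only [hu, if_true] at hy
      have := futProd y hy P.L
      refine this.congr fun M => ?_
      simp only [cw, hu, if_true]
    · simp only [hu, if_false, Bool.false_eq_true] at hy
      have := pastProd y hy P.L
      refine this.congr fun M => ?_
      simp only [cw, hu, if_false, Bool.false_eq_true]
  have h2 : Tendsto (fun M => lawY P.L (cw P y M) M R) atTop (𝓝 (sv P.L R)) := by
    rw [tendsto_iff_norm_sub_tendsto_zero]
    refine squeeze_zero (fun _ => norm_nonneg _) (fun M => ?_) h1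
    refine le_trans (le_of_eq ?_) (apply_le_nrm _ R)
    congr 1
    simp [sub_eq_add_neg]
  have h3 := (Complex.continuous_re.tendsto _).comp h2
  refine h3.congr fun M => ?_
  simp only [Function.comp_apply]
  rw [← ws_eq, Complex.ofReal_re]

/-- the states of bounded support -/
def Bs (L : ℕ) : Set St := {R | ∀ a b, R.rel a b → a = b ∨ (a ≤ L ∧ b ≤ L)}

theorem Bs_finite (L : ℕ) : (Bs L).Finite := by
  classical
  have hf : Function.Injective (fun R : Bs L => fun ab : Fin (L+1) × Fin (L+1) => R.1.rel ab.1 ab.2) := by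
    rintro ⟨R, hR⟩ ⟨R', hR'⟩ h
    apply Subtype.ext
    apply St.ext
    funext a b
    apply propext
    have key : ∀ (R R' : St) (_ : R ∈ Bs L) (_ : (fun ab : Fin (L+1) × Fin (L+1) => R.rel ab.1 ab.2) =
        fun ab : Fin (L+1) × Fin (L+1) => R'.rel ab.1 ab.2) (a b : ℕ), R.rel a b → R'.rel a b := by
      intro R R' hR h a b hab
      rcases hR a b hab with h1 | ⟨h1, h2⟩
      · subst h1; exact R'.eqv.refl _
      · have := congrFun h (⟨a, by omega⟩, ⟨b, by omega⟩)
        simp only at this
        rw [← this]; exact hab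
    exact ⟨key R R' hR h a b, key R' R hR' h.symm a b⟩
  haveI : Finite (Bs L) := Finite.of_injective _ hf
  exact Set.toFinite _

theorem st_Bs (P : Port) (hL : Odd P.L) (M : ℕ) (ω : Conf) : P.st M ω ∈ Bs P.L := by
  intro a b h
  rcases Port.st_supp P hL M ω h with h1 | ⟨_, _, h1, h2⟩
  · exact Or.inl h1
  · exact Or.inr ⟨h1, h2⟩

/-- the limit of the joint laws -/
theorem st_lim {P : ι → Port} (hP : Good P) {p : Edge → I} {y : ι → ℤ → I}
    (hp : ∀ j, Lay (P j) p (y j)) (hy : ∀ j, El (P j) (y j)) (S : Set (ι → St)) [DecidablePred (· ∈ S)]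
    (hd : DecidableEq ι) :
    (∀ M, MeasurableSet {ω | (fun j => (P j).st M ω) ∈ S}) ∧
    Tendsto (fun M => (percP p).real {ω | (fun j => (P j).st M ω) ∈ S}) atTop
      (𝓝 (∑ R ∈ (Fintype.piFinset (fun j => (Bs_finite (P j).L).toFinset)).filter (· ∈ S),
        ∏ j, (sv (P j).L (R j)).re)) := by
  have h1 : ∀ M, {ω | (fun j => (P j).st M ω) ∈ S} = ⋃ R ∈ (Fintype.piFinset
      (fun j => (Bs_finite (P j).L).toFinset)).filter (· ∈ S), {ω | ∀ j, (P j).st M ω = R j} := by
    intro M
    ext ω
    simp only [Set.mem_ofPred_eq, Set.mem_iUnion, Finset.mem_filter, Fintype.mem_piFinset,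
      Set.Finite.mem_toFinset, exists_prop]
    constructor
    · intro h
      exact ⟨fun j => (P j).st M ω, ⟨fun j => st_Bs (P j) (hP.odd j) M ω, h⟩, fun j => rfl⟩
    · rintro ⟨R, ⟨_, h2⟩, h3⟩
      have : (fun j => (P j).st M ω) = R := funext h3
      rw [this]; exact h2
  refine ⟨fun M => ?_, ?_⟩
  · rw [h1 M]
    exact Finset.measurableSet_biUnion _ fun R _ => measurableSet_st P M R
  · have h2 : ∀ M, (percP p).real {ω | (fun j => (P j).st M ω) ∈ S} =
        ∑ R ∈ (Fintype.piFinset (fun j => (Bs_finite (P j).L).toFinset)).filter (· ∈ S),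
          ∏ j, ws (P j) (y j) M (R j) := by
      intro M
      rw [h1 M, measureReal_biUnion_finset]
      · exact Finset.sum_congr rfl fun R _ => percP_st hP hp M R
      · intro R _ R' _ hne
        rw [Function.onFun, Set.disjoint_left]
        intro ω h2 h3
        exact hne (funext fun j => (h2 j).symm.trans (h3 j))
      · exact fun R _ => measurableSet_st P M R
    simp only [h2]
    exact tendsto_finset_sum _ fun R _ => tendsto_finset_prod _ fun j _ =>
      ws_tendsto (hP.odd j) (hy j) (R j)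

/-- **an event which is determined by the states of large windows has the same probability in all
layered environments** -/
theorem univ {P : ι → Port} (hP : Good P) {p p' : Edge → I} {y y' : ι → ℤ → I}
    (hp : ∀ j, Lay (P j) p (y j)) (hy : ∀ j, El (P j) (y j))
    (hp' : ∀ j, Lay (P j) p' (y' j)) (hy' : ∀ j, El (P j) (y' j)) (S : Set (ι → St)) (A : Set Conf)
    (hA : ∀ ω, ∀ᶠ M in atTop, (fun j => (P j).st M ω) ∈ S ↔ ω ∈ A) :
    MeasurableSet A ∧ (percP p).real A = (percP p').real A := by
  classical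
  have h1 := st_lim hP hp hy S inferInstance
  have h2 := st_lim hP hp' hy' S inferInstance
  have g1 : Tendsto (fun M => (percP p).real {ω | (fun j => (P j).st M ω) ∈ S}) atTop
      (𝓝 ((percP p).real A)) := by
    have := tendsto_measure_of_tendsto_indicator_of_isFiniteMeasure atTop (percP p) h1.1 hA
    exact (ENNReal.tendsto_toReal (measure_ne_top _ A)).comp this
  have g2 : Tendsto (fun M => (percP p').real {ω | (fun j => (P j).st M ω) ∈ S}) atTop
      (𝓝 ((percP p').real A)) := by
    have := tendsto_measure_of_tendsto_indicator_of_isFiniteMeasure atTop (percP p') h1.1 hA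
    exact (ENNReal.tendsto_toReal (measure_ne_top _ A)).comp this
  refine ⟨measurableSet_of_tendsto_indicator atTop h1.1 hA, ?_⟩
  rw [tendsto_nhds_unique g1 h1.2, tendsto_nhds_unique g2 h2.2]

end Pool.Agent.H965.Univ
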