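import Pool.Agent.H965.Univ.Law
import Pool.Graph.R_pool_sql_team_seeded_3997aac3.Q292.Env.Indep

/-!
Unions of half-infinite strips: the main theorem.
-/

set_option autoImplicit false

namespace Pool.Agent.H965.Univ

open Pool.Agent.H988R2.Perc MeasureTheory ProbabilityTheory unitInterval Filter Topology Relation
open Q292.Env

/-- a half-infinite strip between the columns `left` and `right`, going up or down from the height
`0` -/
structure Strip where
  up : Bool
  left : ℤ
  right : ℤ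

namespace Strip

/-- the vertices of the strip -/
def Mem (S : Strip) (x : ℤ × ℤ) : Prop :=
  S.left ≤ x.1 - x.2 ∧ x.1 - x.2 ≤ S.right ∧
    (if S.up = true then 0 ≤ x.1 + x.2 else x.1 + x.2 ≤ 0)

/-- the right wall -/
def Wall (S : Strip) (x : ℤ × ℤ) : Prop := S.Mem x ∧ x.1 - x.2 = S.right

/-- the port of a strip -/
def port (S : Strip) : Port := ⟨S.up, (S.left + 1) / 2, (S.right - S.left).toNat⟩

end Strip

variable {ι : Type}

/-- admissible families of strips -/
structure Channel (S : ι → Strip) : Prop where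
  left_odd : ∀ j, Odd (S j).left
  right_even : ∀ j, Even (S j).right
  lt : ∀ j, (S j).left < (S j).right
  sep : ∀ i j, i ≠ j → (S i).up = (S j).up →
    (S i).right < (S j).left ∨ (S j).right < (S i).left

theorem port_m {S : Strip} (h : Odd S.left) : 2 * S.port.m - 1 = S.left := by
  obtain ⟨k, hk⟩ := h
  unfold Strip.port
  dsimp only
  omega

theorem port_r {S : Strip} (h : Odd S.left) (h2 : S.left < S.right) :
    2 * S.port.m - 1 + S.port.L = S.right := by
  rw [port_m h]
  unfold Strip.port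
  dsimp only
  omega

theorem port_mem {S : Strip} (h : Odd S.left) (h2 : S.left < S.right) (x : ℤ × ℤ) :
    S.port.Mem x ↔ S.Mem x := by
  unfold Port.Mem Strip.Mem
  rw [port_m h, ← port_r h h2, port_m h]
  rfl

theorem port_wall {S : Strip} (h : Odd S.left) (h2 : S.left < S.right) (x : ℤ × ℤ) :
    S.port.Wall x ↔ S.Wall x := by
  unfold Port.Wall Strip.Wall
  rw [port_mem h h2, port_r h h2]

theorem port_good {S : ι → Strip} (hS : Channel S) : Good (fun j => (S j).port) where
  odd j := by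
    have h1 := port_m (hS.left_odd j)
    have h2 := port_r (hS.left_odd j) (hS.lt j)
    obtain ⟨k, hk⟩ := hS.right_even j
    rw [Nat.odd_iff]
    omega
  sep i j hij hup := by
    rcases hS.sep i j hij hup with h | h
    · left
      rw [port_r (hS.left_odd i) (hS.lt i), port_m (hS.left_odd j)]; exact h
    · right
      rw [port_r (hS.left_odd j) (hS.lt j), port_m (hS.left_odd i)]; exact h

/-- nondegenerate layered environment of a strip -/
structure EnvOf (S : Strip) (h : ℤ → I) : Prop where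
  pair : ∀ n : ℤ, h (2 * n + 1) = σ (h (2 * n))
  ell : ∃ ε : ℝ, 0 < ε ∧ ∃ᶠ n : ℕ in atTop,
    ε ≤ (h (if S.up = true then 2 * n else -(2 * n)) : ℝ) ∧
      (h (if S.up = true then 2 * n else -(2 * n)) : ℝ) ≤ 1 - ε

/-- the probabilities `p` of the edges of the strip are given by `h` -/
def Layered (S : Strip) (h : ℤ → I) (p : Edge → I) : Prop := ∀ u v : ℤ,
  (S.Mem (u, v) → S.Mem (u + 1, v) → p (u, v, false) = h (u + v)) ∧
  (S.Mem (u, v) → S.Mem (u, v + 1) → p (u, v, true) = σ (h (u + v)))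

theorem port_lay {S : Strip} (hl : Odd S.left) (hlt : S.left < S.right) {h : ℤ → I} {p : Edge → I}
    (hh : ∀ n : ℤ, h (2 * n + 1) = σ (h (2 * n))) (hp : Layered S h p) :
    Lay S.port p (fun n => h (2 * n + 1)) := by
  intro i r h1 h2 h3
  have e1 := port_m hl
  have e2 := port_r hl hlt
  have hup : S.port.up = S.up := rfl
  have hpar : (r / 2 * 2 = r ∧ h r = h (2 * (r/2))) ∨ (r / 2 * 2 + 1 = r ∧ h r = h (2 * (r/2) + 1)) := by
    rcases Int.emod_two_eq_zero_or_one r with h0 | h0
    · left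
      refine ⟨by omega, ?_⟩
      congr 1; omega
    · right
      refine ⟨by omega, ?_⟩
      congr 1; omega
  rw [hup] at h3
  by_cases hir : (i + r) % 2 = 1
  · have e3 : Port.tr S.port.m (edgeOf i r) =
        ((i + r + 1) / 2 + S.port.m - 1, (r + 1 - i) / 2 - S.port.m, true) := by
      unfold edgeOf Port.tr
      rw [if_pos hir]
    have m1 : S.Mem ((i + r + 1) / 2 + S.port.m - 1, (r + 1 - i) / 2 - S.port.m) := by
      refine ⟨by dsimp only; omega, by dsimp only; omega, ?_⟩
      split_ifs at h3 ⊢ <;> dsimp only <;> omega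
    have m2 : S.Mem ((i + r + 1) / 2 + S.port.m - 1, (r + 1 - i) / 2 - S.port.m + 1) := by
      refine ⟨by dsimp only; omega, by dsimp only; omega, ?_⟩
      split_ifs at h3 ⊢ <;> dsimp only <;> omega
    rw [e3, (hp _ _).2 m1 m2]
    have e4 : (i + r + 1) / 2 + S.port.m - 1 + ((r + 1 - i) / 2 - S.port.m) = r := by omega
    rw [e4]
    rcases hpar with ⟨g1, g2⟩ | ⟨g1, g2⟩
    · have : i % 2 = 1 := by omega
      rw [if_pos this, g2]
      simp only [hh]
    · have : ¬ i % 2 = 1 := by omega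
      rw [if_neg this, g2, symm_val]
  · have e3 : Port.tr S.port.m (edgeOf i r) =
        ((i + r) / 2 + S.port.m - 1, (r + 2 - i) / 2 - S.port.m, false) := by
      unfold edgeOf Port.tr
      rw [if_neg hir]
    have m1 : S.Mem ((i + r) / 2 + S.port.m - 1, (r + 2 - i) / 2 - S.port.m) := by
      refine ⟨by dsimp only; omega, by dsimp only; omega, ?_⟩
      split_ifs at h3 ⊢ <;> dsimp only <;> omega
    have m2 : S.Mem ((i + r) / 2 + S.port.m - 1 + 1, (r + 2 - i) / 2 - S.port.m) := by
      refine ⟨by dsimp only; omega, by dsimp only; omega, ?_⟩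
      split_ifs at h3 ⊢ <;> dsimp only <;> omega
    rw [e3, (hp _ _).1 m1 m2]
    have e4 : (i + r) / 2 + S.port.m - 1 + ((r + 2 - i) / 2 - S.port.m) = r := by omega
    rw [e4]
    rcases hpar with ⟨g1, g2⟩ | ⟨g1, g2⟩
    · have : ¬ i % 2 = 1 := by omega
      rw [if_neg this, g2]
      simp only [hh, symm_val]
      ring
    · have : i % 2 = 1 := by omega
      rw [if_pos this, g2]

theorem port_el {S : Strip} {h : ℤ → I} (hE : EnvOf S h) : El S.port (fun n => h (2 * n + 1)) := by
  obtain ⟨hh, hell⟩ := hE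
  unfold El
  have hup : S.port.up = S.up := rfl
  rw [hup]
  by_cases hu : S.up = true
  · simp only [hu, if_true] at hell ⊢
    exact elF_of hh (by simpa using hell)
  · simp only [hu, if_false, Bool.false_eq_true] at hell ⊢
    exact elP_of hh (by simpa using hell)

/-- adjacency in the domain -/
def Adj (S : ι → Strip) (ω : Conf) (x y : ℤ × ℤ) : Prop :=
  OpenAdj ω x y ∧ ∃ j, (S j).Mem x ∧ (S j).Mem y

/-- the wired pattern on the vertices of height `0` -/
def Pattern (S : ι → Strip) (ω : Conf) (s t : ℤ) : Prop :=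
  EqvGen (fun x y => Adj S ω x y ∨ ∃ j, (S j).Wall x ∧ (S j).Wall y) (s, -s) (t, -t)

/-- some right wall of `J` is joined to a right wall which is not in `J` -/
def Joined (S : ι → Strip) (J : Set ι) : Set Conf :=
  {ω | ∃ i ∈ J, ∃ j, j ∉ J ∧ ∃ x y, (S i).Wall x ∧ (S j).Wall y ∧ ReflTransGen (Adj S ω) x y}

theorem pattern_eq {S : ι → Strip} (hS : Channel S) (ω : Conf) :
    Pattern S ω = pat (fun j => (S j).port) ω := by
  funext s t
  unfold Pattern pat
  congr 1
  funext x y
  apply propext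
  unfold WG Port.G Adj
  constructor
  · rintro (⟨h, j, h1, h2⟩ | ⟨j, h1, h2⟩)
    · exact ⟨j, Or.inl ⟨h, (port_mem (hS.left_odd j) (hS.lt j) x).2 h1,
        (port_mem (hS.left_odd j) (hS.lt j) y).2 h2⟩⟩
    · exact ⟨j, Or.inr ⟨(port_wall (hS.left_odd j) (hS.lt j) x).2 h1,
        (port_wall (hS.left_odd j) (hS.lt j) y).2 h2⟩⟩
  · rintro ⟨j, ⟨h, h1, h2⟩ | ⟨h1, h2⟩⟩
    · exact Or.inl ⟨h, j, (port_mem (hS.left_odd j) (hS.lt j) x).1 h1,
        (port_mem (hS.left_odd j) (hS.lt j) y).1 h2⟩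
    · exact Or.inr ⟨j, (port_wall (hS.left_odd j) (hS.lt j) x).1 h1,
        (port_wall (hS.left_odd j) (hS.lt j) y).1 h2⟩

theorem adj_symm {S : ι → Strip} {ω : Conf} {x y : ℤ × ℤ} (h : Adj S ω x y) : Adj S ω y x := by
  obtain ⟨h, j, h1, h2⟩ := h
  exact ⟨T22.openAdj_symm h, j, h2, h1⟩

/-- the base of the right wall -/
theorem base_wall {S : ι → Strip} (hS : Channel S) (j : ι) :
    (S j).Wall ((S j).right / 2, -((S j).right / 2)) := by
  obtain ⟨k, hk⟩ := hS.right_even j
  have := hS.lt j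
  refine ⟨⟨by dsimp only; omega, by dsimp only; omega, ?_⟩, by dsimp only; omega⟩
  split_ifs <;> dsimp only <;> omega

theorem joined_iff {S : ι → Strip} (hS : Channel S) (J : Set ι) (ω : Conf) :
    ω ∈ Joined S J ↔ ∃ i ∈ J, ∃ j, j ∉ J ∧ Pattern S ω ((S i).right / 2) ((S j).right / 2) := by
  constructor
  · rintro ⟨i, hi, j, hj, x, y, hx, hy, h⟩
    refine ⟨i, hi, j, hj, ?_⟩
    unfold Pattern
    refine EqvGen.trans _ _ _ (EqvGen.rel _ _ (Or.inr ⟨i, base_wall hS i, hx⟩))
      (EqvGen.trans _ _ _ ?_ (EqvGen.rel _ _ (Or.inr ⟨j, hy, base_wall hS j⟩)))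
    clear hx hy
    induction h with
    | refl => exact EqvGen.refl _
    | tail _ h2 ih => exact EqvGen.trans _ _ _ ih (EqvGen.rel _ _ (Or.inl h2))
  · rintro ⟨i, hi, j, hj, h⟩
    by_contra hc
    let Q : ℤ × ℤ → Prop := fun z => ∃ i ∈ J, ∃ x, (S i).Wall x ∧ ReflTransGen (Adj S ω) x z
    have hw : ∀ k, k ∉ J → ∀ z, (S k).Wall z → ¬ Q z := by
      rintro k hk z hz ⟨i', hi', x, hx, hxz⟩
      exact hc ⟨i', hi', k, hk, x, z, hx, hz, hxz⟩
    have hQ := T22.eqvGen_iff Q ?_ h
    · exact hw j hj _ (base_wall hS j) (hQ.1 ⟨i, hi, _, base_wall hS i, ReflTransGen.refl⟩)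
    · rintro z w (h1 | ⟨k, h1, h2⟩)
      · constructor
        · rintro ⟨i', hi', x, hx, hxz⟩
          exact ⟨i', hi', x, hx, hxz.tail h1⟩
        · rintro ⟨i', hi', x, hx, hxz⟩
          exact ⟨i', hi', x, hx, hxz.tail (adj_symm h1)⟩
      · by_cases hk : k ∈ J
        · exact ⟨fun _ => ⟨k, hk, w, h2, ReflTransGen.refl⟩, fun _ => ⟨k, hk, z, h1, ReflTransGen.refl⟩⟩
        · exact ⟨fun h => absurd h (hw k hk z h1), fun h => absurd h (hw k hk w h2)⟩

/-- **main theorem**: the law of the pattern does not depend on the environment -/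
theorem pattern_law [Fintype ι] {S : ι → Strip} (hS : Channel S) {h h' : ι → ℤ → I}
    {p p' : Edge → I} (hE : ∀ j, EnvOf (S j) (h j)) (hE' : ∀ j, EnvOf (S j) (h' j))
    (hp : ∀ j, Layered (S j) (h j) p) (hp' : ∀ j, Layered (S j) (h' j) p')
    (B : Set (ℤ → ℤ → Prop)) : MeasurableSet {ω | Pattern S ω ∈ B} ∧
      (percP p).real {ω | Pattern S ω ∈ B} = (percP p').real {ω | Pattern S ω ∈ B} := by
  refine univ (port_good hS) (p := p) (p' := p') (y := fun j n => h j (2 * n + 1))
    (y' := fun j n => h' j (2 * n + 1))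
    (fun j => port_lay (hS.left_odd j) (hS.lt j) (hE j).pair (hp j)) (fun j => port_el (hE j))
    (fun j => port_lay (hS.left_odd j) (hS.lt j) (hE' j).pair (hp' j)) (fun j => port_el (hE' j))
    {R | patS (fun j => (S j).port) R ∈ B} _ ?_
  intro ω
  obtain ⟨M0, hM0⟩ := pat_eq (port_good hS) ω
  filter_upwards [eventually_ge_atTop M0] with M hM
  show patS (fun j => (S j).port) (fun j => (S j).port.st M ω) ∈ B ↔ Pattern S ω ∈ B
  rw [← hM0 M hM, pattern_eq hS ω]

/-- the constant environment `1/2` -/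
theorem env_half (S : Strip) : EnvOf S (fun _ => hlf) where
  pair n := by apply Subtype.ext; rw [symm_val, hlf_val]; norm_num
  ell := ⟨1/2, by norm_num, Frequently.of_forall fun n => by rw [hlf_val]; norm_num⟩

theorem layered_half (S : Strip) : Layered S (fun _ => hlf) (fun _ => hlf) := by
  intro u v
  refine ⟨fun _ _ => rfl, fun _ _ => ?_⟩
  apply Subtype.ext; rw [symm_val, hlf_val]; norm_num

/-- the joint law of the events `Joined` -/
theorem joined_law [Fintype ι] {S : ι → Strip} (hS : Channel S) {h : ι → ℤ → I}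
    {p : Edge → I} (hE : ∀ j, EnvOf (S j) (h j)) (hp : ∀ j, Layered (S j) (h j) p)
    (B : Set (Set (Set ι))) :
    (percP p).real {ω | {J | ω ∈ Joined S J} ∈ B} = perc.real {ω | {J | ω ∈ Joined S J} ∈ B} := by
  have key : {ω | {J | ω ∈ Joined S J} ∈ B} = {ω | Pattern S ω ∈ {r : ℤ → ℤ → Prop |
      {J : Set ι | ∃ i ∈ J, ∃ j, j ∉ J ∧ r ((S i).right / 2) ((S j).right / 2)} ∈ B}} := by
    ext ω
    simp only [Set.mem_ofPred_eq]
    have : {J | ω ∈ Joined S J} = {J : Set ι | ∃ i ∈ J, ∃ j, j ∉ J ∧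
        Pattern S ω ((S i).right / 2) ((S j).right / 2)} := by
      ext J
      exact joined_iff hS J ω
    rw [this]
  rw [key, (pattern_law hS hE (fun j => env_half (S j)) hp (fun j => layered_half (S j)) _).2,
    perc_eq_percP]

end Pool.Agent.H965.Univ
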