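import Pool.Graph.R_pool_sql_team_seeded_3997aac3.Q292.Env.Univ

/-!
Half-infinite strips (ports) and their states.
-/

set_option autoImplicit false

namespace Pool.Agent.H965.Univ

open Pool.Agent.H988R2.Perc Relation

/-- a half-infinite strip: upward or downward, left wall at the column `2m-1`, width `L` -/
structure Port where
  up : Bool
  m : ℤ
  L : ℕ

namespace Port

/-- translation of the edges -/
def tr (m : ℤ) (e : Edge) : Edge := (e.1 + m - 1, e.2.1 - m, e.2.2)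

theorem tr_inj (m : ℤ) : Function.Injective (tr m) := by
  rintro ⟨u, v, d⟩ ⟨u', v', d'⟩ h
  simp only [tr, Prod.mk.injEq] at h
  simp only [Prod.mk.injEq]
  exact ⟨by omega, by omega, h.2.2⟩

/-- translated configuration -/
def cf (m : ℤ) (ω : Conf) : Conf := fun e => ω (tr m e)

/-- the vertices of the port -/
def Mem (P : Port) (x : ℤ × ℤ) : Prop :=
  2 * P.m - 1 ≤ x.1 - x.2 ∧ x.1 - x.2 ≤ 2 * P.m - 1 + P.L ∧
    (if P.up = true then 0 ≤ x.1 + x.2 else x.1 + x.2 ≤ 0)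

/-- the right wall of the port -/
def Wall (P : Port) (x : ℤ × ℤ) : Prop := P.Mem x ∧ x.1 - x.2 = 2 * P.m - 1 + P.L

/-- the graph of the port with wired right wall -/
def G (P : Port) (ω : Conf) (x y : ℤ × ℤ) : Prop :=
  (OpenAdj ω x y ∧ P.Mem x ∧ P.Mem y) ∨ (P.Wall x ∧ P.Wall y)

/-- the state of the port in the window `M` -/
def st (P : Port) (M : ℕ) (ω : Conf) : St :=
  if P.up = true then X P.L (actBit (oFut (cf P.m ω) M)) M
  else X P.L (actBit (oPast (cf P.m ω) M)) M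

/-- time bounds of the window -/
def lo (P : Port) (M : ℕ) : ℤ := if P.up = true then 0 else -(2 * (M : ℤ))
def hi (P : Port) (M : ℕ) : ℤ := if P.up = true then 2 * (M : ℤ) else 0

theorem st_iff (P : Port) (hL : Odd P.L) (M : ℕ) (ω : Conf) (a b : ℕ) (ha : a % 2 = 1)
    (hb : b % 2 = 1) (haL : a ≤ P.L) (hbL : b ≤ P.L) :
    (P.st M ω).rel a b ↔
      EqvGen (T22.EP P.L (P.lo M) (P.hi M) (cf P.m ω)) ((a : ℤ), 0) ((b : ℤ), 0) := by
  unfold st lo hi
  split_ifs
  · exact T22.future_iff P.L hL M _ a b ha hb haL hbL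
  · exact T22.past_iff P.L hL M _ a b ha hb haL hbL

/-- the vertex of the node `a` -/
def node (P : Port) (a : ℕ) : ℤ × ℤ := ((2 * P.m - 1 + a) / 2, -((2 * P.m - 1 + a) / 2))

open Classical in
/-- from (column, time) to the vertices -/
noncomputable def V (P : Port) (p : ℤ × ℤ) : ℤ × ℤ :=
  if (p.1 + p.2) % 2 = 1 ∧ (if P.up = true then 0 ≤ p.2 else p.2 ≤ 0) then
    ((p.1 + p.2 + 1) / 2 + P.m - 1, (p.2 + 1 - p.1) / 2 - P.m)
  else P.node P.L

theorem node_mem (P : Port) {a : ℕ} (ha : a % 2 = 1) (haL : a ≤ P.L) : P.Mem (P.node a) := by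
  unfold Mem node
  refine ⟨by dsimp only; omega, by dsimp only; omega, ?_⟩
  split_ifs <;> dsimp only <;> omega

theorem node_wall (P : Port) (hL : Odd P.L) : P.Wall (P.node P.L) := by
  have h : P.L % 2 = 1 := Nat.odd_iff.1 hL
  exact ⟨node_mem P h le_rfl, by unfold node; dsimp only; omega⟩

theorem V_node (P : Port) (a : ℕ) (ha : a % 2 = 1) : P.V ((a : ℤ), 0) = P.node a := by
  unfold V node
  have h : ((a:ℤ) + 0) % 2 = 1 ∧ (if P.up = true then (0:ℤ) ≤ 0 else (0:ℤ) ≤ 0) := by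
    refine ⟨by omega, ?_⟩
    split_ifs <;> exact le_rfl
  rw [if_pos h]
  apply Prod.ext <;> dsimp only <;> omega

theorem V_wall (P : Port) (hL : Odd P.L) (p : ℤ × ℤ) (hp : p.1 = P.L) : P.Wall (P.V p) := by
  unfold V
  by_cases h : (p.1 + p.2) % 2 = 1 ∧ (if P.up = true then 0 ≤ p.2 else p.2 ≤ 0)
  · rw [if_pos h]
    obtain ⟨h1, h2⟩ := h
    refine ⟨⟨by dsimp only; omega, by dsimp only; omega, ?_⟩, by dsimp only; omega⟩
    split_ifs at h2 ⊢ <;> dsimp only <;> omega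
  · rw [if_neg h]
    exact node_wall P hL

/-- windows to the port -/
theorem of_window (P : Port) (hL : Odd P.L) (M : ℕ) (ω : Conf) {p p' : ℤ × ℤ}
    (h : EqvGen (T22.EP P.L (P.lo M) (P.hi M) (cf P.m ω)) p p') :
    EqvGen (P.G ω) (P.V p) (P.V p') := by
  refine T22.eqvGen_map P.V ?_ h
  rintro p p' (h | ⟨h1, h2⟩)
  · obtain ⟨i, r, h1, h2, h3, h4, h5, h6⟩ := h
    have hlo : (if P.up = true then 0 ≤ r else r + 1 ≤ 0) := by
      unfold lo at h3; unfold hi at h4
      split_ifs at h3 h4 ⊢ <;> omega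
    refine EqvGen.rel _ _ (Or.inl ?_)
    rcases h6 with ⟨e1, e2, e3⟩ | ⟨e1, e2, e3⟩
    · subst e2 e3
      have c1 : ((i, r) : ℤ × ℤ).1 + ((i, r) : ℤ × ℤ).2 = i + r := rfl
      have g1 : P.V (i, r) = ((i + r + 1) / 2 + P.m - 1, (r + 1 - i) / 2 - P.m) := by
        unfold V
        rw [if_pos]
        refine ⟨by dsimp only; omega, ?_⟩
        split_ifs at hlo ⊢ <;> dsimp only <;> omega
      have g2 : P.V (i - 1, r + 1) = ((i + r + 1) / 2 + P.m - 1, (r + 1 - i) / 2 + 1 - P.m) := by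
        unfold V
        rw [if_pos]
        · apply Prod.ext <;> dsimp only <;> omega
        · refine ⟨by dsimp only; omega, ?_⟩
          split_ifs at hlo ⊢ <;> dsimp only <;> omega
      rw [g1, g2]
      refine ⟨?_, ?_, ?_⟩
      · right; right; left
        refine ⟨by apply Prod.ext <;> dsimp only; omega, ?_⟩
        unfold cf tr edgeOf at h5
        rw [if_pos e1] at h5
        exact h5
      · refine ⟨by dsimp only; omega, by dsimp only; omega, ?_⟩
        split_ifs at hlo ⊢ <;> dsimp only <;> omega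
      · refine ⟨by dsimp only; omega, by dsimp only; omega, ?_⟩
        split_ifs at hlo ⊢ <;> dsimp only <;> omega
    · subst e2 e3
      have g1 : P.V (i - 1, r) = ((i + r) / 2 + P.m - 1, (r + 2 - i) / 2 - P.m) := by
        unfold V
        rw [if_pos]
        · apply Prod.ext <;> dsimp only <;> omega
        · refine ⟨by dsimp only; omega, ?_⟩
          split_ifs at hlo ⊢ <;> dsimp only <;> omega
      have g2 : P.V (i, r + 1) = ((i + r) / 2 + 1 + P.m - 1, (r + 2 - i) / 2 - P.m) := by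
        unfold V
        rw [if_pos]
        · apply Prod.ext <;> dsimp only <;> omega
        · refine ⟨by dsimp only; omega, ?_⟩
          split_ifs at hlo ⊢ <;> dsimp only <;> omega
      rw [g1, g2]
      refine ⟨?_, ?_, ?_⟩
      · left
        refine ⟨by apply Prod.ext <;> dsimp only; omega, ?_⟩
        unfold cf tr edgeOf at h5
        rw [if_neg (by omega)] at h5
        exact h5
      · refine ⟨by dsimp only; omega, by dsimp only; omega, ?_⟩
        split_ifs at hlo ⊢ <;> dsimp only <;> omega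
      · refine ⟨by dsimp only; omega, by dsimp only; omega, ?_⟩
        split_ifs at hlo ⊢ <;> dsimp only <;> omega
  · exact EqvGen.rel _ _ (Or.inr ⟨V_wall P hL p h1, V_wall P hL p' h2⟩)

/-- coordinates of a vertex -/
def φ (P : Port) (x : ℤ × ℤ) : ℤ × ℤ := (x.1 - x.2 - (2 * P.m - 1), x.1 + x.2)

theorem φ_node (P : Port) (a : ℕ) (ha : a % 2 = 1) : P.φ (P.node a) = ((a : ℤ), 0) := by
  unfold φ node
  apply Prod.ext <;> dsimp only <;> omega

theorem EP_mono (P : Port) {M M' : ℕ} (h : M ≤ M') (ω : Conf) {p p' : ℤ × ℤ}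
    (hp : EqvGen (T22.EP P.L (P.lo M) (P.hi M) ω) p p') :
    EqvGen (T22.EP P.L (P.lo M') (P.hi M') ω) p p' := by
  refine hp.mono ?_
  rintro p p' (⟨i, r, h1, h2, h3, h4, h5, h6⟩ | h')
  · refine Or.inl ⟨i, r, h1, h2, ?_, ?_, h5, h6⟩
    · unfold lo at h3 ⊢
      split_ifs at h3 ⊢ <;> omega
    · unfold hi at h4 ⊢
      split_ifs at h4 ⊢ <;> omega
  · exact Or.inr h'

theorem step_window (P : Port) (ω : Conf) {x y : ℤ × ℤ} (h : OpenAdj ω x y) (hx : P.Mem x)
    (hy : P.Mem y) : ∃ M, EqvGen (T22.EP P.L (P.lo M) (P.hi M) (cf P.m ω)) (P.φ x) (P.φ y) := by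
  refine ⟨(|x.1 + x.2| + |y.1 + y.2| + 1).toNat, ?_⟩
  have hb1 := abs_le.mp (le_refl |x.1 + x.2|)
  have hb2 := abs_le.mp (le_refl |y.1 + y.2|)
  have hM := Int.self_le_toNat (|x.1 + x.2| + |y.1 + y.2| + 1)
  set M := (|x.1 + x.2| + |y.1 + y.2| + 1).toNat
  obtain ⟨x1, x2⟩ := x
  obtain ⟨y1, y2⟩ := y
  unfold Mem at hx hy
  dsimp only at *
  have hor : ∀ u v : ℤ, ω (u, v, false) = true → P.Mem (u, v) → P.Mem (u+1, v) →
      |u + v| + |u + 1 + v| + 1 ≤ (M : ℤ) →
      T22.EP P.L (P.lo M) (P.hi M) (cf P.m ω) (P.φ (u, v)) (P.φ (u+1, v)) := by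
    intro u v ho h1 h2 h3
    have hb1 := abs_le.mp (le_refl |u + v|)
    have hb2 := abs_le.mp (le_refl |u + 1 + v|)
    unfold Mem at h1 h2
    dsimp only at h1 h2
    refine Or.inl ⟨u + 1 - v - (2 * P.m - 1), u + v, by omega, by omega, ?_, ?_, ?_, Or.inr ⟨by omega, ?_, ?_⟩⟩
    · unfold lo; split_ifs at h1 h2 ⊢ <;> omega
    · unfold hi; split_ifs at h1 h2 ⊢ <;> omega
    · unfold cf tr edgeOf
      rw [if_neg (by omega)]
      dsimp only
      have e1 : (u + 1 - v - (2 * P.m - 1) + (u + v)) / 2 + P.m - 1 = u := by omega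
      have e2 : (u + v + 2 - (u + 1 - v - (2 * P.m - 1))) / 2 - P.m = v := by omega
      rw [e1, e2]; exact ho
    · unfold φ; apply Prod.ext <;> dsimp only <;> omega
    · unfold φ; apply Prod.ext <;> dsimp only <;> omega
  have ver : ∀ u v : ℤ, ω (u, v, true) = true → P.Mem (u, v) → P.Mem (u, v+1) →
      |u + v| + |u + (v + 1)| + 1 ≤ (M : ℤ) →
      T22.EP P.L (P.lo M) (P.hi M) (cf P.m ω) (P.φ (u, v)) (P.φ (u, v+1)) := by
    intro u v ho h1 h2 h3
    have hb1 := abs_le.mp (le_refl |u + v|)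
    have hb2 := abs_le.mp (le_refl |u + (v + 1)|)
    unfold Mem at h1 h2
    dsimp only at h1 h2
    refine Or.inl ⟨u - v - (2 * P.m - 1), u + v, by omega, by omega, ?_, ?_, ?_, Or.inl ⟨by omega, ?_, ?_⟩⟩
    · unfold lo; split_ifs at h1 h2 ⊢ <;> omega
    · unfold hi; split_ifs at h1 h2 ⊢ <;> omega
    · unfold cf tr edgeOf
      rw [if_pos (by omega)]
      dsimp only
      have e1 : (u - v - (2 * P.m - 1) + (u + v) + 1) / 2 + P.m - 1 = u := by omega
      have e2 : (u + v + 1 - (u - v - (2 * P.m - 1))) / 2 - P.m = v := by omega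
      rw [e1, e2]; exact ho
    · unfold φ; apply Prod.ext <;> dsimp only <;> omega
    · unfold φ; apply Prod.ext <;> dsimp only <;> omega
  rcases h with ⟨e, h⟩ | ⟨e, h⟩ | ⟨e, h⟩ | ⟨e, h⟩
  · simp only [Prod.mk.injEq] at e
    obtain ⟨rfl, rfl⟩ := e
    exact EqvGen.rel _ _ (hor _ _ h hx hy (by omega))
  · simp only [Prod.mk.injEq] at e
    obtain ⟨rfl, rfl⟩ := e
    exact EqvGen.symm _ _ (EqvGen.rel _ _ (hor _ _ h hy hx (by omega)))
  · simp only [Prod.mk.injEq] at e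
    obtain ⟨rfl, rfl⟩ := e
    exact EqvGen.rel _ _ (ver _ _ h hx hy (by omega))
  · simp only [Prod.mk.injEq] at e
    obtain ⟨rfl, rfl⟩ := e
    exact EqvGen.symm _ _ (EqvGen.rel _ _ (ver _ _ h hy hx (by omega)))

/-- the port to the windows -/
theorem to_window (P : Port) (ω : Conf) {x y : ℤ × ℤ} (h : EqvGen (P.G ω) x y) :
    ∃ M, EqvGen (T22.EP P.L (P.lo M) (P.hi M) (cf P.m ω)) (P.φ x) (P.φ y) := by
  induction h with
  | rel x y h =>
    rcases h with ⟨h1, h2, h3⟩ | ⟨h1, h2⟩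
    · exact step_window P ω h1 h2 h3
    · refine ⟨0, EqvGen.rel _ _ (Or.inr ⟨?_, ?_⟩)⟩
      · unfold φ; dsimp only; have := h1.2; omega
      · unfold φ; dsimp only; have := h2.2; omega
  | refl x => exact ⟨0, EqvGen.refl _⟩
  | symm x y _ ih => obtain ⟨M, hM⟩ := ih; exact ⟨M, hM.symm⟩
  | trans x y z _ _ i1 i2 =>
    obtain ⟨M1, h1⟩ := i1
    obtain ⟨M2, h2⟩ := i2
    exact ⟨max M1 M2, EqvGen.trans _ _ _ (EP_mono P (le_max_left _ _) _ h1)
      (EP_mono P (le_max_right _ _) _ h2)⟩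

/-- the states are increasing in the window -/
theorem st_mono (P : Port) (hL : Odd P.L) (ω : Conf) {M M' : ℕ} (hM : M ≤ M') {a b : ℕ}
    (ha : a % 2 = 1) (hb : b % 2 = 1) (haL : a ≤ P.L) (hbL : b ≤ P.L)
    (h : (P.st M ω).rel a b) : (P.st M' ω).rel a b := by
  rw [st_iff P hL M ω a b ha hb haL hbL] at h
  rw [st_iff P hL M' ω a b ha hb haL hbL]
  exact EP_mono P hM _ h

/-- the states and the graph of the port -/
theorem G_iff (P : Port) (hL : Odd P.L) (ω : Conf) {a b : ℕ}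
    (ha : a % 2 = 1) (hb : b % 2 = 1) (haL : a ≤ P.L) (hbL : b ≤ P.L) :
    EqvGen (P.G ω) (P.node a) (P.node b) ↔ ∃ M, (P.st M ω).rel a b := by
  constructor
  · intro h
    obtain ⟨M, hM⟩ := to_window P ω h
    rw [φ_node P a ha, φ_node P b hb] at hM
    exact ⟨M, (st_iff P hL M ω a b ha hb haL hbL).2 hM⟩
  · rintro ⟨M, h⟩
    rw [st_iff P hL M ω a b ha hb haL hbL] at h
    have := of_window P hL M ω h
    rwa [V_node P a ha, V_node P b hb] at this

theorem st_supp (P : Port) (hL : Odd P.L) (M : ℕ) (ω : Conf) {a b : ℕ}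
    (h : (P.st M ω).rel a b) : a = b ∨ (a % 2 = 1 ∧ b % 2 = 1 ∧ a ≤ P.L ∧ b ≤ P.L) := by
  have h1 := (P.st M ω).odd a b h
  have h2 : a = b ∨ (a ≤ P.L ∧ b ≤ P.L) := by
    unfold st at h
    split_ifs at h
    · exact X_supp P.L hL M _ a b h
    · exact X_supp P.L hL M _ a b h
  rcases h1 with h1 | h1
  · exact Or.inl h1
  · rcases h2 with h2 | h2
    · exact Or.inl h2
    · exact Or.inr ⟨h1.1, h1.2, h2.1, h2.2⟩

end Port

end Pool.Agent.H965.Univ
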